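import Pool.Agent.R814.AC.Lower

/-!
# MP_efb25f_co : antichains in the unit cube of maximal codimension-one Hausdorff measure

Full answer to Q1 (true): for every `n = m + 1 ≥ 2` there is a set `S ⊆ [0,1]^n` without two
distinct points `x, y` such that `x i ≤ y i` for every `i`, whose `(n-1)`-dimensional Hausdorff
measure (in Euclidean space, without normalising constant) is exactly `n` times the measure of
the unit `(n-1)`-cube, equivalently of any facet of `[0,1]^n`; that measure is positive and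
finite.
-/

namespace Pool.Agent.Results.MP_efb25f_co.MaxAntichain

open MeasureTheory Measure
open scoped ENNReal

/-- For every `m ≥ 1`, with `n = m + 1`, there is an `n`-cube antichain `S` in `[0,1]^n` with
`μH[n-1] S = n * μH[n-1] (unit (n-1)-cube) = n * μH[n-1] (facet)` for every facet. -/
theorem result (m : ℕ) (hm : 1 ≤ m) :
    (0 < μH[m] {z : EuclideanSpace ℝ (Fin m) | ∀ i, z i ∈ Set.Icc (0 : ℝ) 1} ∧
      μH[m] {z : EuclideanSpace ℝ (Fin m) | ∀ i, z i ∈ Set.Icc (0 : ℝ) 1} < ⊤) ∧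
    ∃ S : Set (EuclideanSpace ℝ (Fin (m + 1))),
      (∀ x ∈ S, ∀ i, x i ∈ Set.Icc (0 : ℝ) 1) ∧
      (∀ x ∈ S, ∀ y ∈ S, x ≠ y → ¬ ∀ i, x i ≤ y i) ∧
      μH[m] S = ((m + 1 : ℕ) : ℝ≥0∞) *
        μH[m] {z : EuclideanSpace ℝ (Fin m) | ∀ i, z i ∈ Set.Icc (0 : ℝ) 1} ∧
      ∀ j : Fin (m + 1), ∀ c ∈ Set.Icc (0 : ℝ) 1, μH[m] S = ((m + 1 : ℕ) : ℝ≥0∞) *
        μH[m] {x : EuclideanSpace ℝ (Fin (m + 1)) | x j = c ∧ ∀ i, x i ∈ Set.Icc (0 : ℝ) 1} := by
  refine ⟨⟨R814.AC.cube_pos, R814.AC.cube_lt_top⟩, R814.AC.S m, ?_, ?_, ?_, ?_⟩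
  · intro x hx i
    exact R814.AC.S_sub hx i
  · intro x hx y hy hne
    exact R814.AC.S_anti hx hy hne
  · exact R814.AC.S_measure hm
  · intro j c hc
    have h := R814.AC.facet_measure (m := m) j hc
    rw [R814.AC.S_measure hm, ← h]
    rfl

end Pool.Agent.Results.MP_efb25f_co.MaxAntichain
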